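import Pool.Agent.V5helper10.GK.Stm2
import Pool.Agent.V5helper10.GK.Main
import Pool.Agent.V5helper6.KSC.G8
import Pool.Agent.V5helper60.KSC.LD4

/-!
# Project GK, part 2: job SOI

The Hodge arrays of a K3 surface with `End T(X) = ℚ` are fixed by the special orthogonal group of the
transcendental part and killed by its Lie algebra.
-/

set_option linter.unusedSectionVars false

open CategoryTheory AlgebraicGeometry TensorProduct

universe u

namespace Pool.Agent.V5helper69.GK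

open Module Matrix
open Pool.Agent.H914 Pool.Agent.H914.VarClass Pool.Agent.H914.VarClass.Obj
  Pool.Agent.H914.WeilCohomology
open Pool.Agent.Y133.Half Pool.Agent.Y121.AH
open Pool.Agent.N996.BP Pool.Agent.N996.BP.Geo
open Pool.Agent.N996.FP (So ho)
open Pool.Agent.V5helper10 Pool.Agent.V5helper10.KSC Pool.Agent.V5helper10.GK

section Pure

variable {ι : Type} [Fintype ι] [DecidableEq ι]

/-- The vectors supported on `tt` are the functions on `tt`. -/
def tcEquiv (tt : Finset ι) : TC tt ≃ₗ[ℂ] (tt → ℂ) where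
  toFun v i := v.1 i
  map_add' _ _ := rfl
  map_smul' _ _ := rfl
  invFun f := ⟨fun i => if h : i ∈ tt then f ⟨i, h⟩ else 0, fun i hi => dif_neg hi⟩
  left_inv v := by
    apply Subtype.ext
    funext i
    by_cases hi : i ∈ tt
    · exact dif_pos hi
    · exact (dif_neg hi).trans (v.2 i hi).symm
  right_inv f := by
    funext i
    exact dif_pos i.2

lemma finrank_TC (tt : Finset ι) : finrank ℂ (TC tt) = tt.card := by
  rw [(tcEquiv tt).finrank_eq, Module.finrank_fintype_fun_eq_card, Fintype.card_coe]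

/-- The form on a coordinate vector. -/
lemma bq_single {H : HData ι} {tt : Finset ι} {w : ι → ℂ} (hw : K3D H tt w) (i : ι) (v : ι → ℂ) :
    bq H (Pi.single i 1) v = (H.Qr i i : ℂ) * v i := by
  rw [bq, single_one_dotProduct, Matrix.mulVec, dotProduct, Finset.sum_eq_single i]
  · rfl
  · intro j _ hj
    rw [cQ, Matrix.map_apply, hw.diag i j (Ne.symm hj), Rat.cast_zero, zero_mul]
  · intro hi
    exact absurd (Finset.mem_univ i) hi

lemma Qr_symm {H : HData ι} {tt : Finset ι} {w : ι → ℂ} (hw : K3D H tt w) : H.Qrᵀ = H.Qr := by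
  ext i j
  rw [Matrix.transpose_apply]
  by_cases hij : i = j
  · rw [hij]
  · rw [hw.diag i j hij, hw.diag j i (Ne.symm hij)]

/-- A vector orthogonal to the vectors supported on `tt` is fixed. -/
lemma fix_of_orth {H : HData ι} {tt : Finset ι} {w : ι → ℂ} (hw : K3D H tt w) {A : Matrix ι ι ℂ}
    (hA : ∀ i, i ∉ tt → A *ᵥ (Pi.single i 1 : ι → ℂ) = Pi.single i 1) {v : ι → ℂ}
    (hv : ∀ y ∈ TC tt, bq H y v = 0) : A *ᵥ v = v := by
  have h0 : ∀ i ∈ tt, v i = 0 := by
    intro i hi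
    have h1 : (Pi.single i 1 : ι → ℂ) ∈ TC tt := by
      intro j hj
      refine Pi.single_eq_of_ne ?_ _
      rintro rfl
      exact hj hi
    have h2 := hv _ h1
    rw [bq_single hw] at h2
    refine (mul_eq_zero.1 h2).resolve_left ?_
    exact_mod_cast (Pool.Agent.V5helper60.KSC.Qr_self_ne hw i).1
  have h3 : v = ∑ i, v i • (Pi.single i 1 : ι → ℂ) := pi_eq_sum_univ' v
  conv_lhs => rw [h3]
  conv_rhs => rw [h3]
  rw [Matrix.mulVec_sum]
  refine Finset.sum_congr rfl fun i _ => ?_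
  rw [Matrix.mulVec_smul]
  by_cases hi : i ∈ tt
  · rw [h0 i hi, zero_smul, zero_smul]
  · rw [hA i hi]

end Pure

theorem t_SOI : S_SOI.{u} := by
  intro k _ 𝒱 ops T X Dv hK hS ι _ _ M
  obtain ⟨w, hw⟩ := KSC.All.h_k3 T X Dv hK M
  have hpos := tt_pos KSC.All.h_stab KSC.All.h_sum hw
  have h0 : ∃ x ∈ TrA T X, x ≠ 0 := by
    obtain ⟨i, hi⟩ := Finset.card_pos.1 hpos
    exact ⟨M.e i, M.hB.tra i hi, M.e.ne_zero i⟩
  have h1 : finrank T.W.K (EndTrA T X) = 1 := finrank_one hK hS h0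
  have h2 : finrank T.W.K (EndTrA T X) = finrank ℚ (HE M.H M.tt) :=
    Pool.Agent.V5helper6.KSC.G8 T X Dv hK M
  have h3 := KSC.All.h_dim M.H M.tt w hw
  rw [← h2, h1, mul_one] at h3
  have h5 : MM M.H w (RingEquiv.refl ℂ) ≤ TC M.tt := by
    rw [← KSC.All.h_sum M.H M.tt w hw]
    exact le_iSup (fun σ : ℂ ≃+* ℂ => MM M.H w σ) (RingEquiv.refl ℂ)
  have h6 : MM M.H w (RingEquiv.refl ℂ) = TC M.tt :=
    Submodule.eq_of_le_of_finrank_eq h5 (by rw [h3, finrank_TC])
  have hsym : M.H.Qrᵀ = M.H.Qr := Qr_symm hw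
  have hnd : ∀ x ∈ TC M.tt, (∀ y ∈ TC M.tt, bq M.H x y = 0) → x = 0 :=
    (KSC.All.h_compl M.H).2.2.1 M.tt hw.diag
  have hwm : w ∈ MM M.H w (RingEquiv.refl ℂ) :=
    ((KSC.All.h_stab M.H w).1 (RingEquiv.refl ℂ)).2
  have h7 : MM M.H w (RingEquiv.refl ℂ) = MB M.H w (RingEquiv.refl ℂ) := by
    by_contra hne
    have h8 := (KSC.All.h_pair M.H M.tt w hw).2.2.2.2.1 (RingEquiv.refl ℂ) hne w hwm
    rw [h6] at h8
    exact hw.ne (hnd w (h5 hwm) h8)
  have hwd : ∀ x ∈ TC M.tt, ∀ y ∈ TC M.tt, wd M.H x y ∈ ho M.H := by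
    intro x hx y hy
    refine KSC.All.h_wd M.H M.tt w hw (RingEquiv.refl ℂ) x ?_ y ?_
    · rw [h6]
      exact hx
    · rw [← h7, h6]
      exact hy
  exact ⟨hwd, fun A hA hN hfix hdet => KSC.All.h_so M.H hsym (TC M.tt) hwd hnd A hA hN
    (fun v hv => fix_of_orth hw hfix hv) hdet⟩

end Pool.Agent.V5helper69.GK
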